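import Pool.Agent.W662.SK.StmtsB

/-!
# SK-B5: the algebra `A_π` is closed
-/

set_option autoImplicit false

open Filter Topology

namespace Pool.Agent.W400.SK

open Pool.Agent.W662.SK

theorem b5 (h0 : S_B0) (h4 : S_B4) : S_B5 := by
  intro Γ K _ _ _ _ π hS
  obtain ⟨-, -, hadd, -, -, hnorm⟩ := h0 Γ K π
  have hsub : ∀ a b, sg π (a - b) = sg π a - sg π b := by
    intro a b
    have h := hadd b (a - b)
    rw [add_sub_cancel] at h
    rw [h]; abel
  have key := h4 Γ K π hS
  rw [← isSeqClosed_iff_isClosed]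
  intro x T hx hT
  choose j hj c hc hxe using hx
  have hd : ∀ n m, dist (c n) (c m) ≤ dist (x n) (x m) := by
    intro n m
    rw [dist_eq_norm, dist_eq_norm]
    have h1 := key (j n - j m) (Submodule.sub_mem _ (hj n) (hj m)) (c n - c m)
      (Submodule.sub_mem _ (hc n) (hc m))
    have h2 : x n - x m = (j n - j m) + sg π (c n - c m) := by
      rw [hxe n, hxe m, hsub]; abel
    rw [h2]; exact h1
  have hxc : CauchySeq x := hT.cauchySeq
  have hcc : CauchySeq c := by
    rw [Metric.cauchySeq_iff] at hxc ⊢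
    intro ε hε
    obtain ⟨N, hN⟩ := hxc ε hε
    exact ⟨N, fun m hm n hn => lt_of_le_of_lt (hd m n) (hN m hm n hn)⟩
  obtain ⟨c', hc'⟩ := cauchySeq_tendsto_of_complete hcc
  have hc'm : c' ∈ Cr Γ K := by
    have hcl : IsClosed (Cr Γ K : Set (L2 Γ K →L[ℂ] L2 Γ K)) := by
      unfold Cr
      exact Submodule.isClosed_topologicalClosure _
    exact hcl.mem_of_tendsto hc' (Eventually.of_forall hc)
  have hsg : Tendsto (fun n => sg π (c n)) atTop (𝓝 (sg π c')) := by
    rw [tendsto_iff_norm_sub_tendsto_zero] at hc' ⊢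
    simp only [← hsub, hnorm]
    exact hc'
  have hj' : Tendsto j atTop (𝓝 (T - sg π c')) := by
    have h1 : j = fun n => x n - sg π (c n) := by
      funext n
      rw [hxe n]; abel
    rw [h1]
    exact hT.sub hsg
  have hjm : T - sg π c' ∈ Jd Γ K := by
    have hcl : IsClosed (Jd Γ K : Set (L2 Γ K →L[ℂ] L2 Γ K)) := by
      unfold Jd
      exact Submodule.isClosed_topologicalClosure _
    exact hcl.mem_of_tendsto hj' (Eventually.of_forall hj)
  exact ⟨T - sg π c', hjm, c', hc'm, by abel⟩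

end Pool.Agent.W400.SK

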